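import Pool.Agent.U35.RC.Ex
import Pool.Agent.U901.RC.T
import Pool.Agent.U606.RC.W
import Pool.Agent.U312.RC.E

set_option autoImplicit false

/-!
# Weak König's lemma and `Σ⁰₂` collection do not prove the bounded Ramsey theorem for pairs

`Mod` is the type of the structures for second-order arithmetic, `RCA0 M` says that `M` is a model
of RCA₀ and `Bnd M 2` that it satisfies the scheme of collection for `Σ⁰₂` formulas with parameters
(`Pool/Agent/H40/BsigDefs.lean`). `WKL M` is weak König's lemma and `BRT M` the bounded Ramsey
theorem for pairs and two colours (`Pool/Agent/U35/RC/Def.lean`).

The theorem: there is a model of RCA₀, WKL and `BΣ⁰₂` in which the bounded Ramsey theorem for pairs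
fails. This is the negated form of question Q1.

Proof. Let `K` be a countable nonstandard model of arithmetic (a countable part of an ultrapower of
`ℕ`, closed under the least witnesses of countably many relations). The model is `(I, S)` where `I` is
a regular initial segment of `K` and `S` consists of all sets `X ∩ I`, `X` a set coded in `K`. For
regular `I` this is a model of WKL and of `BΣ⁰₂`.

In `K` there is a graph on an interval without cliques with more than `2^k` vertices, for a
nonstandard number `k`, and a set `A₀` of vertices in which `k` moves of the following kind are
possible: given a colouring `F` of `A` with fewer than `min A` colours, a number `x`, and a set `H`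
which is independent in the graph, pass from `A` to a subset `A'` on which `F` is constant, with
`A' < x` or `x ≤ A'`, with larger minimum, and such that no element of `H` is between
`min A'` and `max A'`. After `ω` moves, one for each task in a list of all `F`, `x`, `H` in `K`, the
minima of the sets `A₀ ⊇ A₁ ⊇ …` are cofinal in a regular cut `I`, and each coded set which is
independent in the graph is bounded in `I`. So in the colouring of the pairs given by the graph there
is no homogeneous set for colour 1 of size `2^k + 1`, a number in `I`, and no infinite homogeneous
set for colour 0.

The graph of level `k + 1` is made of consecutive intervals with graphs of level `k`. The intervals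
are indexed by the vertices of the shift graph, and two intervals are completely joined if their
indices are adjacent. The shift graph has no triangles, so the sizes of the cliques are at most
doubled. It has infinite chromatic number, so (by compactness) for finitely many colours there are
two joined intervals in which large parts have the same colour. An independent set avoids
one of two joined intervals.

The finite combinatorics was formalised by helper901 (the shift graph), helper606 (the moves) and
helper312 (existence of the graph), following the statements in `Pool/Agent/U35/RC/Stm.lean`.
-/

namespace Pool.Agent.Results.MP_14f891_lc.NotProvable

open Pool.Agent.H40.Bsig (Mod RCA0 Bnd)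
open Pool.Agent.U35.RC (WKL BRT)

/-- There is a model of RCA₀ + WKL + `BΣ⁰₂` in which the bounded Ramsey theorem for pairs and two
colours fails. -/
theorem result : ∃ M : Mod, RCA0 M ∧ WKL M ∧ Bnd M 2 ∧ ¬ BRT M :=
  Pool.Agent.U35.RC.main (Pool.Agent.U35.RC.comb_of Pool.Agent.U901.RC.t_T
    Pool.Agent.U606.RC.t_W Pool.Agent.U312.RC.E.t_E)

end Pool.Agent.Results.MP_14f891_lc.NotProvable
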